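import Pool.Agent.H11.LD.CLSa

/-! # Row CLS: the graphs of index at most `μ` have the minimal structure -/

set_option autoImplicit false

open Finset Classical

namespace Pool.Agent.H11.LD

open Pool.Agent.H9.Lap

/-- the positions are onto -/
theorem pos_surj {g : ℕ} {pos : Fin g → ℕ} (hlt : ∀ i, pos i < g) (hinj : Function.Injective pos)
    {t : ℕ} (ht : t < g) : ∃ i, pos i = t := by
  let F : Fin g → Fin g := fun i => ⟨pos i, hlt i⟩
  have hF : Function.Injective F := fun i j hij => hinj (congrArg Fin.val hij)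
  obtain ⟨i, hi⟩ := (Finite.injective_iff_surjective.1 hF) ⟨t, ht⟩
  exact ⟨i, congrArg Fin.val hi⟩

/-- the quotient graph -/
def quo {V : Type} (G : SimpleGraph V) {g : ℕ} (p : V → Fin g) : SimpleGraph (Fin g) where
  Adj i k := i ≠ k ∧ ∃ a b, G.Adj a b ∧ p a = i ∧ p b = k
  symm := ⟨fun _ _ h => by
    obtain ⟨h1, a, b, h2, h3, h4⟩ := h
    exact ⟨h1.symm, b, a, h2.symm, h4, h3⟩⟩
  loopless := ⟨fun _ h => h.1 rfl⟩

theorem quo_connected {V : Type} [Fintype V] {G : SimpleGraph V} {g m : ℕ} {p : V → Fin g}
    {c : Fin g → V} (hC : Clu G g m p c) (hG : G.Connected) (hg : 0 < g) :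
    (quo G p).Connected := by
  have h1 : ∀ a b, G.Walk a b → (quo G p).Reachable (p a) (p b) := by
    intro a b w
    induction w with
    | nil => exact SimpleGraph.Reachable.refl _
    | cons h _ ih =>
      rename_i a b d _
      by_cases hab : p a = p b
      · rw [hab]
        exact ih
      · have h2 : (quo G p).Adj (p a) (p b) := ⟨hab, a, b, h, rfl, rfl⟩
        exact h2.reachable.trans ih
  have : Nonempty (Fin g) := ⟨⟨0, hg⟩⟩
  refine ⟨fun i k => ?_⟩
  obtain ⟨w⟩ := hG.preconnected (c i) (c k)
  have h2 := h1 _ _ w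
  rw [hC.pc, hC.pc] at h2
  exact h2

/-- at most two neighbours -/
theorem quo_deg {V : Type} [Fintype V] {G : SimpleGraph V} {g : ℕ} {p : V → Fin g}
    (h : ∀ i k₁ k₂ k₃ : Fin g, k₁ ≠ i → k₂ ≠ i → k₃ ≠ i → k₁ ≠ k₂ →
      k₁ ≠ k₃ → k₂ ≠ k₃ → (∃ a b, G.Adj a b ∧ p a = i ∧ p b = k₁) →
      (∃ a b, G.Adj a b ∧ p a = i ∧ p b = k₂) → (∃ a b, G.Adj a b ∧ p a = i ∧ p b = k₃) → False)
    (i : Fin g) : (nb (quo G p) i).card ≤ 2 := by
  by_contra hcon
  push Not at hcon
  obtain ⟨k1, h1, k2, h2, k3, h3, h12, h13, h23⟩ := Finset.two_lt_card.1 hcon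
  rw [mem_nb'] at h1 h2 h3
  exact h i k1 k2 k3 h1.1.symm h2.1.symm h3.1.symm h12 h13 h23 h1.2 h2.2 h3.2

/-- existence of a row -/
theorem exists_row {V : Type} [Fintype V] {G : SimpleGraph V} {g m : ℕ} {p : V → Fin g}
    {c : Fin g → V} (hC : Clu G g m p c) {pos : Fin g → ℕ} (hlt : ∀ i, pos i < g)
    (hinj : Function.Injective pos) (hadj : ∀ i k, pos k = pos i + 1 → (quo G p).Adj i k) :
    ∃ u w : Fin g → V, Row G p pos u w := by
  have hL : ∀ i, ∃ e : V × V, p e.1 = i ∧ ∀ k, pos k = pos i + 1 → G.Adj e.1 e.2 ∧ p e.2 = k := by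
    intro i
    by_cases h : ∃ k, pos k = pos i + 1
    · obtain ⟨k, hk⟩ := h
      obtain ⟨_, a, b, hab, ha, hb⟩ := hadj i k hk
      refine ⟨(a, b), ha, fun k' hk' => ?_⟩
      have : k' = k := hinj (hk'.trans hk.symm)
      rw [this]
      exact ⟨hab, hb⟩
    · push Not at h
      exact ⟨(c i, c i), hC.pc i, fun k hk => absurd hk (h k)⟩
  choose L hL1 hL2 using hL
  have hW : ∀ k, ∃ b, p b = k ∧ ∀ i, pos k = pos i + 1 → b = (L i).2 := by
    intro k
    by_cases h : ∃ i, pos k = pos i + 1
    · obtain ⟨i, hi⟩ := h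
      refine ⟨(L i).2, (hL2 i k hi).2, fun i' hi' => ?_⟩
      have : i' = i := hinj (by omega)
      rw [this]
    · push Not at h
      exact ⟨c k, hC.pc k, fun i hi => absurd hi (h i)⟩
  choose W hW1 hW2 using hW
  refine ⟨fun i => (L i).1, W, hlt, hinj, hL1, hW1, fun i k hk => ?_⟩
  rw [hW2 k i hk]
  exact (hL2 i k hk).1

/-- a third leaf -/
theorem exists_leaf {V : Type} [Fintype V] {g m : ℕ} {p : V → Fin g} (hm : 3 ≤ m) {i : Fin g}
    (hfib : (univ.filter fun v => p v = i).card = m) (x y : V) :
    ∃ z, p z = i ∧ z ≠ x ∧ z ≠ y := by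
  by_contra h
  push Not at h
  have h1 : (univ.filter fun v => p v = i) ⊆ {x, y} := by
    intro z hz
    rw [Finset.mem_filter] at hz
    rw [Finset.mem_insert, Finset.mem_singleton]
    by_cases hzx : z = x
    · exact Or.inl hzx
    · exact Or.inr (h z hz.2 hzx)
  have h2 := Finset.card_le_card h1
  have h3 := Finset.card_le_two (a := x) (b := y)
  omega

/-- rotation by one: the last cluster becomes the first one -/
noncomputable def rotF (g : ℕ) (pos : ℕ) : ℕ := if pos + 1 = g then 0 else pos + 1

/-- rotation by one: the first cluster becomes the last one -/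
noncomputable def rotB (g : ℕ) (pos : ℕ) : ℕ := if pos = 0 then g - 1 else pos - 1

theorem row_F {V : Type} [Fintype V] {G : SimpleGraph V} {g : ℕ} {p : V → Fin g}
    {pos : Fin g → ℕ} {u w : Fin g → V} (hR : Row G p pos u w) (hg : 3 ≤ g)
    (hcl : ∀ i k, pos i + 1 = g → pos k = 0 → G.Adj (u i) (w k)) :
    Row G p (fun i => rotF g (pos i)) u w := by
  refine ⟨fun i => ?_, fun i k hik => ?_, hR.pu, hR.pw, fun i k hik => ?_⟩
  · have := hR.lt i
    unfold rotF
    split_ifs <;> omega
  · have h1 := hR.lt i
    have h2 := hR.lt k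
    apply hR.inj
    change rotF g (pos i) = rotF g (pos k) at hik
    unfold rotF at hik
    split_ifs at hik <;> omega
  · have h1 := hR.lt i
    have h2 := hR.lt k
    change rotF g (pos k) = rotF g (pos i) + 1 at hik
    unfold rotF at hik
    have h3 : (pos i + 1 = g ∧ pos k = 0) ∨ pos k = pos i + 1 := by
      split_ifs at hik <;> omega
    rcases h3 with h3 | h3
    · exact hcl i k h3.1 h3.2
    · exact hR.adj i k h3

theorem row_B {V : Type} [Fintype V] {G : SimpleGraph V} {g : ℕ} {p : V → Fin g}
    {pos : Fin g → ℕ} {u w : Fin g → V} (hR : Row G p pos u w) (hg : 3 ≤ g)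
    (hcl : ∀ i k, pos i + 1 = g → pos k = 0 → G.Adj (u i) (w k)) :
    Row G p (fun i => rotB g (pos i)) u w := by
  refine ⟨fun i => ?_, fun i k hik => ?_, hR.pu, hR.pw, fun i k hik => ?_⟩
  · have := hR.lt i
    unfold rotB
    split_ifs <;> omega
  · have h1 := hR.lt i
    have h2 := hR.lt k
    apply hR.inj
    change rotB g (pos i) = rotB g (pos k) at hik
    unfold rotB at hik
    split_ifs at hik <;> omega
  · have h1 := hR.lt i
    have h2 := hR.lt k
    change rotB g (pos k) = rotB g (pos i) + 1 at hik
    unfold rotB at hik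
    have h3 : (pos i + 1 = g ∧ pos k = 0) ∨ pos k = pos i + 1 := by
      split_ifs at hik <;> omega
    rcases h3 with h3 | h3
    · exact hcl i k h3.1 h3.2
    · exact hR.adj i k h3

theorem pf_CLS (hDEG : T_DEG) (hROOT : T_ROOT) (hCLU : T_CLU) (hHAM : T_HAM) (hDG2 : T_DG2)
    (hPTH : T_PTH) (hQM : T_QM) : T_CLS := by
  intro V _ G g m μ hg hm hcard hconn hdom hroot hub
  obtain ⟨μ', hr', h3, _, hμm, heq, _, hlt4, hm3, hm4⟩ := hROOT g m hg hm
  have hμ : μ' = μ := hr'.unique hroot
  subst hμ
  have hdeg : ∀ v, (nb G v).card + 1 ≤ m := by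
    intro v
    by_contra h
    push Not at h
    have h1 := hDEG V G μ' hub v (by omega)
    have h2 : (m : ℝ) ≤ ((nb G v).card : ℝ) := by exact_mod_cast (by omega : m ≤ (nb G v).card)
    linarith
  obtain ⟨p, c, hC⟩ := hCLU V G g m (by omega) (by omega) hcard hdom hdeg
  have hD := hDG2 V G g m p c μ' hC (by omega) h3 hub (by rw [heq]; exact hlt4)
  obtain ⟨pos, hlt, hinj, hadj⟩ := hHAM g (quo G p) (quo_connected hC hconn (by omega))
    (quo_deg hD)
  obtain ⟨u, w, hR⟩ := exists_row hC hlt hinj hadj
  have hsurj : ∀ {t : ℕ}, t < g → ∃ i, pos i = t := fun ht => pos_surj hlt hinj ht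
  -- the ends of links are not centres
  have hcu : ∀ i k, pos k = pos i + 1 → c i ≠ u i := by
    intro i k hik h
    have h1 := hR.adj i k hik
    rw [← h] at h1
    have h2 := hC.hub i _ h1
    rw [hR.pw] at h2
    rw [h2] at hik
    omega
  have hcw : ∀ i k, pos k = pos i + 1 → c k ≠ w k := by
    intro i k hik h
    have h1 := hR.adj i k hik
    rw [← h] at h1
    have h2 := hC.hub k _ h1.symm
    rw [hR.pu] at h2
    rw [h2] at hik
    omega
  have hcu' : ∀ i, pos i + 1 < g → c i ≠ u i := fun i hi => by
    obtain ⟨k, hk⟩ := hsurj hi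
    exact hcu i k hk
  have hcw' : ∀ i, 0 < pos i → c i ≠ w i := fun i hi => by
    have := hlt i
    obtain ⟨k, hk⟩ := hsurj (show pos i - 1 < g by omega)
    exact hcw k i (by omega)
  -- edges between different clusters with positions of the same parity
  have hends : ∀ a b, G.Adj a b → p a ≠ p b → pos (p a) % 2 = pos (p b) % 2 →
      pos (p a) = 0 ∨ pos (p a) + 1 = g := by
    intro a b hab hne hpar
    by_contra hcon
    push Not at hcon
    have h1 := hlt (p a)
    obtain ⟨i1, hi1⟩ := hsurj (show pos (p a) - 1 < g by omega)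
    obtain ⟨i2, hi2⟩ := hsurj (show pos (p a) + 1 < g by omega)
    have e1 := hR.adj i1 (p a) (by omega)
    have e2 := hR.adj (p a) i2 (by omega)
    refine hD (p a) i1 i2 (p b) ?_ ?_ hne.symm ?_ ?_ ?_ ⟨_, _, e1.symm, hR.pw _, hR.pu _⟩
      ⟨_, _, e2, hR.pu _, hR.pw _⟩ ⟨a, b, hab, rfl, rfl⟩
    · intro h; rw [h] at hi1; omega
    · intro h; rw [h] at hi2; omega
    · intro h; rw [h] at hi1; omega
    · intro h; rw [h] at hi1; omega
    · intro h; rw [h] at hi2; omega
  obtain ⟨P1, P2, P3⟩ := hPTH V G g m p c pos u w μ' hC (by omega) hg hR h3 hub heq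
  by_cases hP : 3 ≤ g ∧ ∃ a b, G.Adj a b ∧ pos (p a) = 0 ∧ pos (p b) + 1 = g
  · -- the closing link
    obtain ⟨hg3, a, b, hab, hpa, hpb⟩ := hP
    have hneab : p a ≠ p b := fun h => by
      rw [h] at hpa
      omega
    have hodd : Odd g := by
      rcases P3 a b hab hneab with h | h | h
      · omega
      · omega
      · rw [Nat.odd_iff]
        omega
    let u' : Fin g → V := fun i => if pos i + 1 = g then b else u i
    let w' : Fin g → V := fun i => if pos i = 0 then a else w i
    have hu'1 : ∀ i, pos i + 1 = g → u' i = b := fun i hi => if_pos hi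
    have hu'2 : ∀ i, pos i + 1 ≠ g → u' i = u i := fun i hi => if_neg hi
    have hw'1 : ∀ i, pos i = 0 → w' i = a := fun i hi => if_pos hi
    have hw'2 : ∀ i, pos i ≠ 0 → w' i = w i := fun i hi => if_neg hi
    have hR' : Row G p pos u' w' := by
      refine ⟨hlt, hinj, fun i => ?_, fun i => ?_, fun i k hik => ?_⟩
      · by_cases hi : pos i + 1 = g
        · rw [hu'1 i hi]
          exact hinj (by omega)
        · rw [hu'2 i hi]
          exact hR.pu i
      · by_cases hi : pos i = 0
        · rw [hw'1 i hi]
          exact hinj (by omega)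
        · rw [hw'2 i hi]
          exact hR.pw i
      · have := hlt k
        rw [hu'2 i (by omega), hw'2 k (by omega)]
        exact hR.adj i k hik
    have hcl : ∀ i k, pos i + 1 = g → pos k = 0 → G.Adj (u' i) (w' k) := by
      intro i k hi hk
      rw [hu'1 i hi, hw'1 k hk]
      exact hab.symm
    have hRF := row_F hR' hg3 hcl
    have hRB := row_B hR' hg3 hcl
    obtain ⟨Q1, Q2, Q3⟩ := hPTH V G g m p c pos u' w' μ' hC (by omega) hg hR' h3 hub heq
    obtain ⟨F1, F2, F3⟩ := hPTH V G g m p c _ u' w' μ' hC (by omega) hg hRF h3 hub heq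
    obtain ⟨B1, B2, B3⟩ := hPTH V G g m p c _ u' w' μ' hC (by omega) hg hRB h3 hub heq
    -- links in the cyclic order
    have hlink : ∀ i k, (pos k = pos i + 1 ∨ (pos i + 1 = g ∧ pos k = 0)) →
        G.Adj (u' i) (w' k) := by
      intro i k h
      rcases h with h | ⟨h1, h2⟩
      · exact hR'.adj i k h
      · exact hcl i k h1 h2
    have hnext : ∀ i, ∃ k, pos k = pos i + 1 ∨ (pos i + 1 = g ∧ pos k = 0) := by
      intro i
      have := hlt i
      by_cases hi : pos i + 1 = g
      · obtain ⟨k, hk⟩ := hsurj (show 0 < g by omega)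
        exact ⟨k, Or.inr ⟨hi, hk⟩⟩
      · obtain ⟨k, hk⟩ := hsurj (show pos i + 1 < g by omega)
        exact ⟨k, Or.inl hk⟩
    have hprev : ∀ k, ∃ i, pos k = pos i + 1 ∨ (pos i + 1 = g ∧ pos k = 0) := by
      intro k
      have := hlt k
      by_cases hk : pos k = 0
      · obtain ⟨i, hi⟩ := hsurj (show g - 1 < g by omega)
        exact ⟨i, Or.inr ⟨by omega, hk⟩⟩
      · obtain ⟨i, hi⟩ := hsurj (show pos k - 1 < g by omega)
        exact ⟨i, Or.inl (by omega)⟩
    have hcu2 : ∀ i, c i ≠ u' i := by
      intro i h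
      obtain ⟨k, hk⟩ := hnext i
      have h1 := hlink i k hk
      rw [← h] at h1
      have h2 := hC.hub i _ h1
      rw [hR'.pw] at h2
      rw [h2] at hk
      omega
    have hcw2 : ∀ i, c i ≠ w' i := by
      intro k h
      obtain ⟨i, hi⟩ := hprev k
      have h1 := hlink i k hi
      rw [← h] at h1
      have h2 := hC.hub k _ h1.symm
      rw [hR'.pu] at h2
      rw [h2] at hi
      omega
    have huw2 : ∀ i, u' i ≠ w' i := by
      intro i
      have := hlt i
      by_cases h0 : pos i = 0
      · refine F1 i ?_ ?_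
        · change 0 < rotF g (pos i)
          unfold rotF
          split_ifs <;> omega
        · change rotF g (pos i) + 1 < g
          unfold rotF
          split_ifs <;> omega
      · by_cases h1 : pos i + 1 = g
        · refine B1 i ?_ ?_
          · change 0 < rotB g (pos i)
            unfold rotB
            split_ifs
            omega
          · change rotB g (pos i) + 1 < g
            unfold rotB
            split_ifs
            omega
        · exact Q1 i (by omega) (by omega)
    refine minimizer_of hm hcard hC pos u' w' hlt hinj hR'.pu hR'.pw hcu2 hcw2 huw2 True False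
      (fun _ => hodd) (fun h => h.elim) ?_ ?_
    · intro x y hxy
      constructor
      · intro hadj
        rcases Q3 x y hadj hxy with ⟨h1, h2, h4⟩ | ⟨h1, h2, h4⟩ | hpar
        · exact Or.inl ⟨h2, h4, Or.inl h1⟩
        · exact Or.inr ⟨h2, h4, Or.inl h1⟩
        · have e1 := hends x y hadj hxy hpar
          have e2 := hends y x hadj.symm hxy.symm hpar.symm
          have hne : pos (p x) ≠ pos (p y) := fun h => hxy (hinj h)
          rcases F3 x y hadj hxy with ⟨h1, h2, h4⟩ | ⟨h1, h2, h4⟩ | hparF
          · refine Or.inl ⟨h2, h4, ?_⟩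
            change rotF g (pos (p y)) = rotF g (pos (p x)) + 1 at h1
            unfold rotF at h1
            have h5 : pos (p x) + 1 = g ∧ pos (p y) = 0 := by
              split_ifs at h1 <;> omega
            exact Or.inr ⟨trivial, h5⟩
          · refine Or.inr ⟨h2, h4, ?_⟩
            change rotF g (pos (p x)) = rotF g (pos (p y)) + 1 at h1
            unfold rotF at h1
            have h5 : pos (p y) + 1 = g ∧ pos (p x) = 0 := by
              split_ifs at h1 <;> omega
            exact Or.inr ⟨trivial, h5⟩
          · exfalso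
            change rotF g (pos (p x)) % 2 = rotF g (pos (p y)) % 2 at hparF
            unfold rotF at hparF
            split_ifs at hparF <;> omega
      · rintro (⟨h1, h2, h4⟩ | ⟨h1, h2, h4⟩)
        · rw [h1, h2]
          exact hlink _ _ (by rcases h4 with h4 | ⟨_, h4, h5⟩
                              · exact Or.inl h4
                              · exact Or.inr ⟨h4, h5⟩)
        · rw [h1, h2]
          exact (hlink _ _ (by rcases h4 with h4 | ⟨_, h4, h5⟩
                               · exact Or.inl h4
                               · exact Or.inr ⟨h4, h5⟩)).symm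
    · intro x y hne hpxy hx hy hus
      constructor
      · intro hadj
        exfalso
        have hq := hlt (p x)
        have q2 := Q2 x y hadj hpxy hx hy
        have f2 := F2 x y hadj hpxy hx hy
        have b2 := B2 x y hadj hpxy hx hy
        unfold UsedR at q2 f2 b2
        have hus' : x = u' (p x) ∨ x = w' (p x) := by
          rcases hus with h | h
          · exact Or.inl h.1
          · exact Or.inr h.1
        have r1 : rotF g (pos (p x)) = if pos (p x) + 1 = g then 0 else pos (p x) + 1 := rfl
        have r2 : rotB g (pos (p x)) = if pos (p x) = 0 then g - 1 else pos (p x) - 1 := rfl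
        have key : ∀ t : ℕ, (¬ ((x = u' (p x) ∧ t + 1 < g) ∨ (x = w' (p x) ∧ 0 < t)) ∨
            2 * t + 1 = g) → (x = u' (p x) → t + 1 < g → 2 * t + 1 = g) ∧
            (x = w' (p x) → 0 < t → 2 * t + 1 = g) := by
          intro t ht
          constructor
          · intro h1 h2
            rcases ht with ht | ht
            · exact absurd (Or.inl ⟨h1, h2⟩) ht
            · exact ht
          · intro h1 h2
            rcases ht with ht | ht
            · exact absurd (Or.inr ⟨h1, h2⟩) ht
            · exact ht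
        have kq := key (pos (p x)) (by
          rcases q2 with h | h
          · exact Or.inl h.1
          · exact Or.inr h.2.2)
        have kf := key (rotF g (pos (p x))) (by
          rcases f2 with h | h
          · exact Or.inl h.1
          · exact Or.inr h.2.2)
        have kb := key (rotB g (pos (p x))) (by
          rcases b2 with h | h
          · exact Or.inl h.1
          · exact Or.inr h.2.2)
        rw [r1] at kf
        rw [r2] at kb
        rcases hus' with h | h
        · have a1 := kq.1 h
          have a2 := kf.1 h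
          have a3 := kb.1 h
          split_ifs at a2 a3 <;> omega
        · have a1 := kq.2 h
          have a2 := kf.2 h
          have a3 := kb.2 h
          split_ifs at a2 a3 <;> omega
      · rintro ⟨h, _⟩
        exact h.elim
  · -- no closing link
    push Not at hP
    obtain ⟨fi, hfi⟩ := hsurj (show 0 < g by omega)
    obtain ⟨la, hla⟩ := hsurj (show g - 1 < g by omega)
    obtain ⟨zf, hzf1, hzf2, hzf3⟩ := exists_leaf hm (hC.card fi) (c fi) (u fi)
    obtain ⟨zl, hzl1, hzl2, hzl3⟩ := exists_leaf hm (hC.card la) (c la) (w la)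
    let u' : Fin g → V := fun i => if pos i + 1 = g then zl else u i
    let w' : Fin g → V := fun i => if pos i = 0 then zf else w i
    have hu'1 : ∀ i, pos i + 1 = g → u' i = zl := fun i hi => if_pos hi
    have hu'2 : ∀ i, pos i + 1 ≠ g → u' i = u i := fun i hi => if_neg hi
    have hw'1 : ∀ i, pos i = 0 → w' i = zf := fun i hi => if_pos hi
    have hw'2 : ∀ i, pos i ≠ 0 → w' i = w i := fun i hi => if_neg hi
    have hfi' : ∀ i, pos i = 0 → i = fi := fun i hi => hinj (by omega)
    have hla' : ∀ i, pos i + 1 = g → i = la := fun i hi => hinj (by omega)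
    refine minimizer_of hm hcard hC pos u' w' hlt hinj ?_ ?_ ?_ ?_ ?_ False
      (∃ i, 2 * pos i + 1 = g ∧ 0 < pos i ∧ G.Adj (u i) (w i)) (fun h => h.elim) ?_ ?_ ?_
    · intro i
      by_cases hi : pos i + 1 = g
      · rw [hu'1 i hi, hzl1, hla' i hi]
      · rw [hu'2 i hi]
        exact hR.pu i
    · intro i
      by_cases hi : pos i = 0
      · rw [hw'1 i hi, hzf1, hfi' i hi]
      · rw [hw'2 i hi]
        exact hR.pw i
    · intro i
      have := hlt i
      by_cases hi : pos i + 1 = g
      · rw [hu'1 i hi, hla' i hi]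
        exact hzl2.symm
      · rw [hu'2 i hi]
        exact hcu' i (by omega)
    · intro i
      by_cases hi : pos i = 0
      · rw [hw'1 i hi, hfi' i hi]
        exact hzf2.symm
      · rw [hw'2 i hi]
        exact hcw' i (by omega)
    · intro i
      have := hlt i
      by_cases hi : pos i = 0
      · rw [hw'1 i hi, hu'2 i (by omega), hfi' i hi]
        exact hzf3.symm
      · rw [hw'2 i hi]
        by_cases hi2 : pos i + 1 = g
        · rw [hu'1 i hi2, hla' i hi2]
          exact hzl3
        · rw [hu'2 i hi2]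
          exact P1 i (by omega) (by omega)
    · rintro ⟨i, h1, h2, h4⟩
      refine ⟨?_, ?_, fun h => h⟩
      · rw [Nat.odd_iff]
        omega
      · exact hQM V G g m p c pos u w μ' hC hR hub hm3 hm4 hm i h2 (by omega)
          (P1 i h2 (by omega)) h4
    · intro x y hxy
      have hx := hlt (p x)
      have hy := hlt (p y)
      constructor
      · intro hadj
        rcases P3 x y hadj hxy with ⟨h1, h2, h4⟩ | ⟨h1, h2, h4⟩ | hpar
        · refine Or.inl ⟨?_, ?_, Or.inl h1⟩
          · rw [hu'2 _ (by omega)]; exact h2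
          · rw [hw'2 _ (by omega)]; exact h4
        · refine Or.inr ⟨?_, ?_, Or.inl h1⟩
          · rw [hu'2 _ (by omega)]; exact h2
          · rw [hw'2 _ (by omega)]; exact h4
        · exfalso
          have e1 := hends x y hadj hxy hpar
          have e2 := hends y x hadj.symm hxy.symm hpar.symm
          have hne : pos (p x) ≠ pos (p y) := fun h => hxy (hinj h)
          have hg3 : 3 ≤ g := by omega
          rcases e1 with e1 | e1
          · exact hP hg3 x y hadj e1 (by omega)
          · exact hP hg3 y x hadj.symm (by omega) e1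
      · rintro (⟨h1, h2, h4⟩ | ⟨h1, h2, h4⟩)
        · rcases h4 with h4 | h4
          · rw [hu'2 _ (by omega)] at h1
            rw [hw'2 _ (by omega)] at h2
            rw [h1, h2]
            exact hR.adj _ _ h4
          · exact h4.1.elim
        · rcases h4 with h4 | h4
          · rw [hu'2 _ (by omega)] at h1
            rw [hw'2 _ (by omega)] at h2
            rw [h1, h2]
            exact (hR.adj _ _ h4).symm
          · exact h4.1.elim
    · intro x y hne hpxy hx hy hus
      have hus2 : ∀ z, ((z = u' (p z) ∧ (pos (p z) + 1 < g ∨ False)) ∨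
          (z = w' (p z) ∧ (0 < pos (p z) ∨ False))) ↔ UsedR p pos u w z := by
        intro z
        unfold UsedR
        simp only [or_false]
        constructor
        · rintro (⟨h1, h2⟩ | ⟨h1, h2⟩)
          · rw [hu'2 _ (by omega)] at h1
            exact Or.inl ⟨h1, h2⟩
          · rw [hw'2 _ (by omega)] at h1
            exact Or.inr ⟨h1, h2⟩
        · rintro (⟨h1, h2⟩ | ⟨h1, h2⟩)
          · refine Or.inl ⟨?_, h2⟩
            rw [hu'2 _ (by omega)]
            exact h1
          · refine Or.inr ⟨?_, h2⟩
            rw [hw'2 _ (by omega)]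
            exact h1
      rw [hus2] at hus
      rw [hus2]
      have hboth : UsedR p pos u w x → UsedR p pos u w y → 2 * pos (p x) + 1 = g →
          (x = u (p x) ∧ y = w (p x)) ∨ (x = w (p x) ∧ y = u (p x)) := by
        intro h1 h2 _
        unfold UsedR at h1 h2
        rw [← hpxy] at h2
        rcases h1 with ⟨h1, _⟩ | ⟨h1, _⟩
        · rcases h2 with ⟨h2, _⟩ | ⟨h2, _⟩
          · exact absurd (h1.trans h2.symm) hne
          · exact Or.inl ⟨h1, h2⟩
        · rcases h2 with ⟨h2, _⟩ | ⟨h2, _⟩
          · exact Or.inr ⟨h1, h2⟩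
          · exact absurd (h1.trans h2.symm) hne
      constructor
      · intro hadj
        rcases P2 x y hadj hpxy hx hy with ⟨h, _⟩ | ⟨h1, h2, h4⟩
        · exact absurd hus h
        · refine ⟨⟨p x, h4, by omega, ?_⟩, h4, h2⟩
          rcases hboth h1 h2 h4 with ⟨h5, h6⟩ | ⟨h5, h6⟩
          · rw [← h5, ← h6]
            exact hadj
          · rw [← h5, ← h6]
            exact hadj.symm
      · rintro ⟨⟨i, h1, h2, h4⟩, h5, h6⟩
        have hi : i = p x := hinj (by omega)
        rw [hi] at h4
        rcases hboth hus h6 h5 with ⟨h7, h8⟩ | ⟨h7, h8⟩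
        · rw [← h7, ← h8] at h4
          exact h4
        · rw [← h7, ← h8] at h4
          exact h4.symm

end Pool.Agent.H11.LD
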