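import Pool.Agent.H11.LD.Defs

/-!
# Least Laplacian index of connected graphs with given domination number (MP_c4ad93_co, Q2):
targets of the modules (board ldm_modules)
-/

set_option autoImplicit false

open Finset Classical

namespace Pool.Agent.H11.LD

open Pool.Agent.H9.Lap

/-- RAY: the Laplacian index and the quadratic form. -/
def T_RAY : Prop := ∀ (V : Type) [Fintype V] [Nonempty V] (G : SimpleGraph V) (x : ℝ),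
  IsLapIndex G x → Ub G x ∧ ∀ c : ℝ, Ub G c → x ≤ c

/-- DEG: the index is at least the maximum degree plus one. -/
def T_DEG : Prop := ∀ (V : Type) [Fintype V] (G : SimpleGraph V) (x : ℝ), Ub G x →
  ∀ v, 1 ≤ (nb G v).card → ((nb G v).card : ℝ) + 1 ≤ x

/-- ROOT: facts on the root. -/
def T_ROOT : Prop := ∀ g m : ℕ, 2 ≤ g → 3 ≤ m → ∃ μ : ℝ, IsRoot g m μ ∧ 3 < μ ∧ (m : ℝ) < μ ∧
  μ < m + 1 ∧ μ * (μ - 3) * (μ - m) = 4 * Real.cos (Real.pi / (2 * g)) ^ 2 ∧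
  (∀ y : ℝ, 3 < y → 4 * Real.cos (Real.pi / (2 * g)) ^ 2 ≤ y * (y - 3) * (y - m) → μ ≤ y) ∧
  4 * Real.cos (Real.pi / (2 * g)) ^ 2 < 4 ∧ (m = 3 → μ < 4) ∧ (m = 4 → μ < 457 / 100)

/-- CLU: the clusters. -/
def T_CLU : Prop := ∀ (V : Type) [Fintype V] (G : SimpleGraph V) (g m : ℕ), 1 ≤ g → 1 ≤ m →
  Fintype.card V = g * m → HasDom G g → (∀ v, (nb G v).card + 1 ≤ m) →
  ∃ (p : V → Fin g) (c : Fin g → V), Clu G g m p c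

/-- LB: the lower bound. -/
def T_LB : Prop := ∀ (V : Type) [Fintype V] (G : SimpleGraph V) (g m : ℕ) (p : V → Fin g)
  (c : Fin g → V) (E : Finset (V × V)) (A s : Fin g → ℝ) (μ : ℝ), Clu G g m p c → 1 ≤ m →
  Sys G p E A s → 3 < μ → Ub G μ →
  ∑ e ∈ E, wt p A e ^ 2 ≤ μ * (μ - 3) * (μ - m) * ∑ i, A i ^ 2

/-- LBE: the case of equality. -/
def T_LBE : Prop := ∀ (V : Type) [Fintype V] (G : SimpleGraph V) (g m : ℕ) (p : V → Fin g)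
  (c : Fin g → V) (E : Finset (V × V)) (A s : Fin g → ℝ) (μ : ℝ), Clu G g m p c → 1 ≤ m →
  Sys G p E A s → 3 < μ → Ub G μ → (∀ i, 0 < A i) →
  μ * (μ - 3) * (μ - m) * ∑ i, A i ^ 2 ≤ ∑ e ∈ E, wt p A e ^ 2 →
  (∀ e ∈ E, ∀ e' ∈ E, e ≠ e' → e.1 ≠ e'.1 ∧ e.1 ≠ e'.2 ∧ e.2 ≠ e'.2) ∧
  ∀ a b, G.Adj a b → (a, b) ∉ E → (b, a) ∉ E → a ≠ c (p a) → b ≠ c (p b) →
    s (p a) * (A (p a) + load p E A a / (μ - 3)) = s (p b) * (A (p b) + load p E A b / (μ - 3))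

/-- HAM: Hamiltonian paths. -/
def T_HAM : Prop := ∀ (g : ℕ) (H : SimpleGraph (Fin g)), H.Connected →
  (∀ i, (nb H i).card ≤ 2) →
  ∃ pos : Fin g → ℕ, (∀ i, pos i < g) ∧ Function.Injective pos ∧
    ∀ i k, pos k = pos i + 1 → H.Adj i k

/-- SIN: the weights of the path. -/
def T_SIN : Prop := ∀ g : ℕ, 2 ≤ g → (∀ i, i < g → 0 < sn g i) ∧
  (∀ i k, i < g → k < g → sn g i = sn g k → i = k ∨ i + k + 1 = g) ∧
  (∀ i, sn g i + sn g (i + 2) = 2 * Real.cos (Real.pi / g) * sn g (i + 1)) ∧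
  sn g 1 = (2 * Real.cos (Real.pi / g) + 1) * sn g 0 ∧ sn g (g - 1) = sn g 0 ∧
  ∑ i ∈ range (g - 1), (sn g i + sn g (i + 1)) ^ 2 =
    4 * Real.cos (Real.pi / (2 * g)) ^ 2 * ∑ i ∈ range g, sn g i ^ 2

/-- DG2: every cluster is joined to at most two other clusters. -/
def T_DG2 : Prop := ∀ (V : Type) [Fintype V] (G : SimpleGraph V) (g m : ℕ) (p : V → Fin g)
  (c : Fin g → V) (μ : ℝ), Clu G g m p c → 1 ≤ m → 3 < μ → Ub G μ →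
  μ * (μ - 3) * (μ - m) < 4 → ∀ i k₁ k₂ k₃ : Fin g, k₁ ≠ i → k₂ ≠ i → k₃ ≠ i → k₁ ≠ k₂ →
  k₁ ≠ k₃ → k₂ ≠ k₃ → (∃ a b, G.Adj a b ∧ p a = i ∧ p b = k₁) →
  (∃ a b, G.Adj a b ∧ p a = i ∧ p b = k₂) → (∃ a b, G.Adj a b ∧ p a = i ∧ p b = k₃) → False

/-- PLB: the lower bound from a row. -/
def T_PLB : Prop := ∀ (V : Type) [Fintype V] (G : SimpleGraph V) (g m : ℕ) (p : V → Fin g)
  (c : Fin g → V) (pos : Fin g → ℕ) (u w : Fin g → V) (μ : ℝ), Clu G g m p c → 1 ≤ m → 2 ≤ g →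
  Row G p pos u w → 3 < μ → Ub G μ →
  4 * Real.cos (Real.pi / (2 * g)) ^ 2 ≤ μ * (μ - 3) * (μ - m)

/-- PTH: a row in the case of equality. -/
def T_PTH : Prop := ∀ (V : Type) [Fintype V] (G : SimpleGraph V) (g m : ℕ) (p : V → Fin g)
  (c : Fin g → V) (pos : Fin g → ℕ) (u w : Fin g → V) (μ : ℝ), Clu G g m p c → 1 ≤ m → 2 ≤ g →
  Row G p pos u w → 3 < μ → Ub G μ →
  μ * (μ - 3) * (μ - m) = 4 * Real.cos (Real.pi / (2 * g)) ^ 2 →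
  (∀ i, 0 < pos i → pos i + 1 < g → u i ≠ w i) ∧
  (∀ a b, G.Adj a b → p a = p b → a ≠ c (p a) → b ≠ c (p b) →
    (¬ UsedR p pos u w a ∧ ¬ UsedR p pos u w b) ∨
    (UsedR p pos u w a ∧ UsedR p pos u w b ∧ 2 * pos (p a) + 1 = g)) ∧
  (∀ a b, G.Adj a b → p a ≠ p b → (pos (p b) = pos (p a) + 1 ∧ a = u (p a) ∧ b = w (p b)) ∨
    (pos (p a) = pos (p b) + 1 ∧ b = u (p b) ∧ a = w (p a)) ∨
    pos (p a) % 2 = pos (p b) % 2)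

/-- QM: no edge between the two ends of links in the middle cluster if `m ≤ 4`. -/
def T_QM : Prop := ∀ (V : Type) [Fintype V] (G : SimpleGraph V) (g m : ℕ) (p : V → Fin g)
  (c : Fin g → V) (pos : Fin g → ℕ) (u w : Fin g → V) (μ : ℝ), Clu G g m p c →
  Row G p pos u w → Ub G μ → (m = 3 → μ < 4) → (m = 4 → μ < 457 / 100) → 3 ≤ m →
  ∀ i, 0 < pos i → pos i + 1 < g → u i ≠ w i → G.Adj (u i) (w i) → 5 ≤ m

/-- CLS: the graphs of index at most `μ` have the minimal structure. -/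
def T_CLS : Prop := ∀ (V : Type) [Fintype V] (G : SimpleGraph V) (g m : ℕ) (μ : ℝ), 2 ≤ g →
  3 ≤ m → Fintype.card V = g * m → G.Connected → HasDom G g → IsRoot g m μ → Ub G μ →
  Minimizer G g m

/-- MLB: the lower bound for all graphs of the class. -/
def T_MLB : Prop := ∀ (V : Type) [Fintype V] (G : SimpleGraph V) (g m : ℕ) (μ x : ℝ), 2 ≤ g →
  3 ≤ m → Fintype.card V = g * m → G.Connected → HasDom G g → IsRoot g m μ → Ub G x → μ ≤ x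

/-- PU: the quadratic form of the path. -/
def T_PU : Prop := ∀ (g : ℕ) (y : ℕ → ℝ), 2 ≤ g →
  ∑ i ∈ range (g - 1), (y i - y (i + 1)) ^ 2 ≤
    4 * Real.cos (Real.pi / (2 * g)) ^ 2 * ∑ i ∈ range g, y i ^ 2 ∧
  ∀ (k : ℕ) (r : ℝ), g = 2 * k + 1 → 0 ≤ r → r ≤ 1 →
    ∑ i ∈ range (g - 1), (y i - y (i + 1)) ^ 2 + r / 2 * (y (k + 1) - y (k - 1)) ^ 2 ≤
      4 * Real.cos (Real.pi / (2 * g)) ^ 2 * ∑ i ∈ range g, y i ^ 2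

/-- CU: the quadratic form of the odd cycle. -/
def T_CU : Prop := ∀ (g : ℕ) (y : ℕ → ℝ), 3 ≤ g → Odd g →
  ∑ i ∈ range (g - 1), (y i - y (i + 1)) ^ 2 + (y (g - 1) - y 0) ^ 2 ≤
    4 * Real.cos (Real.pi / (2 * g)) ^ 2 * ∑ i ∈ range g, y i ^ 2

/-- UBA: from the structure to the form `FF`. -/
def T_UBA : Prop := ∀ (V : Type) [Fintype V] (G : SimpleGraph V) (g m : ℕ)
  (e : V ≃ Fin g × Fin m) (P Q : Prop), 2 ≤ g → 3 ≤ m → (P → 3 ≤ g) → (Q → Odd g ∧ 3 ≤ g) →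
  Str G g m e P Q → ∀ (f : V → ℝ) (x : ℕ → ℕ → ℝ),
  (∀ v, x ((e v).1 : ℕ) ((e v).2 : ℕ) = f v) →
  qf G f ≤ FF g m P Q x ∧ ∑ v, f v ^ 2 = ∑ i ∈ range g, ∑ j ∈ range m, x i j ^ 2

/-- UBL: the leaves of a cluster which are not ends of links. -/
def T_UBL : Prop := ∀ (S : Finset ℕ) (x : ℕ → ℝ) (y μ : ℝ), 1 < μ → (S.card : ℝ) + 1 ≤ μ →
  ∑ j ∈ S, (y - x j) ^ 2 + (∑ j ∈ S, ∑ j' ∈ S, (x j - x j') ^ 2) / 2 ≤
    μ * ∑ j ∈ S, x j ^ 2 + S.card * (μ / (μ - 1)) * y ^ 2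

/-- UBK: one link, and the two links of the middle cluster with the edge `Q`. -/
def T_UBK : Prop := ∀ μ : ℝ, 3 < μ →
  (∀ y y' a b : ℝ, (y - a) ^ 2 + (y' - b) ^ 2 + (a - b) ^ 2 ≤
    μ * (a ^ 2 + b ^ 2) + μ / (μ - 1) * (y ^ 2 + y' ^ 2) + (y - y') ^ 2 / ((μ - 1) * (μ - 3))) ∧
  (5 ≤ μ → ∀ y₀ y y₁ a₀ a b b₁ : ℝ,
    (y₀ - a₀) ^ 2 + (y - a) ^ 2 + (y - b) ^ 2 + (y₁ - b₁) ^ 2 + (a₀ - a) ^ 2 + (b - b₁) ^ 2 +
      (a - b) ^ 2 ≤ μ * (a₀ ^ 2 + a ^ 2 + b ^ 2 + b₁ ^ 2) +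
      μ / (μ - 1) * (y₀ ^ 2 + 2 * y ^ 2 + y₁ ^ 2) +
      ((y₀ - y) ^ 2 + (y - y₁) ^ 2 + (y₀ - y₁) ^ 2 / 2) / ((μ - 1) * (μ - 3)))

/-- UBB: the form `FF`. -/
def T_UBB : Prop := ∀ (g m : ℕ) (P Q : Prop) (μ : ℝ) (x : ℕ → ℕ → ℝ), 2 ≤ g → 3 ≤ m → 3 < μ →
  (m : ℝ) < μ → μ * (μ - 3) * (μ - m) = 4 * Real.cos (Real.pi / (2 * g)) ^ 2 → (P → Odd g) →
  (Q → Odd g ∧ 5 ≤ m ∧ ¬ P) → FF g m P Q x ≤ μ * ∑ i ∈ range g, ∑ j ∈ range m, x i j ^ 2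

/-- EXA: examples of order `n`, `g (m-1) < n ≤ g m`. -/
def T_EXA : Prop := ∀ (g m n : ℕ) (μ : ℝ), 2 ≤ g → 3 ≤ m → g * (m - 1) < n → n ≤ g * m →
  3 * g ≤ n → IsRoot g m μ → ∃ G : SimpleGraph (Fin n), G.Connected ∧ HasDom G g ∧ Ub G μ

/-- GEN: the lower bound for every order. -/
def T_GEN : Prop := ∀ (V : Type) [Fintype V] (G : SimpleGraph V) (g m : ℕ) (x : ℝ), 2 ≤ g →
  2 ≤ m → g * (m - 1) < Fintype.card V → G.Connected → HasDom G g → Ub G x →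
  (m : ℝ) + 1 / (m * (m - 1)) ≤ x

/-- FIN: the theorem. -/
def T_FIN : Prop :=
  (∀ g m : ℕ, 2 ≤ g → 3 ≤ m → ∃ μ : ℝ, IsRoot g m μ ∧
    IsLeast {x : ℝ | ∃ G : SimpleGraph (Fin (g * m)), G.Connected ∧ HasDom G g ∧ IsLapIndex G x}
      μ ∧
    ∀ G : SimpleGraph (Fin (g * m)), G.Connected → HasDom G g →
      (IsLapIndex G μ ↔ Minimizer G g m)) ∧
  ∀ g m n : ℕ, 2 ≤ g → 3 ≤ m → g * (m - 1) < n → n ≤ g * m → 3 * g ≤ n → ∃ x μ : ℝ,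
    IsLeast {x : ℝ | ∃ G : SimpleGraph (Fin n), G.Connected ∧ HasDom G g ∧ IsLapIndex G x} x ∧
    IsRoot g m μ ∧ (m : ℝ) + 1 / (m * (m - 1)) ≤ x ∧ x ≤ μ

end Pool.Agent.H11.LD
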