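import Pool.Agent.H11.LD.CLU
import Pool.Agent.H11.LD.CLS
import Pool.Agent.H1.LD.MLB
import Pool.Agent.H1.LD.PLB
import Pool.Agent.H13.LD.CU
import Pool.Agent.H19.LD.DG2
import Pool.Agent.H19.LD.PTH
import Pool.Agent.H19.LD.QM
import Pool.Agent.H20.LD.EXA
import Pool.Agent.H20.LD.UBK
import Pool.Agent.H2.LDM.FIN
import Pool.Agent.H36.LD.GEN
import Pool.Agent.H75.LD.HAM
import Pool.Agent.H75.LD.SIN
import Pool.Agent.H68.LDM.LB
import Pool.Agent.H35.LD.LBE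
import Pool.Agent.H60.LD.PU
import Pool.Agent.H60.LD.UBL
import Pool.Agent.H67.LD.RAY
import Pool.Agent.H63.LD.UBA
import Pool.Agent.H74.LD.UBB

/-!
# Least Laplacian index of connected graphs with given domination number (MP_c4ad93_co, Q2): assembly
-/

set_option autoImplicit false

namespace Pool.Agent.H11.LD.All

open Pool.Agent.H11.LD

theorem r_SIN : T_SIN := Pool.Agent.H75.LD.pf_SIN
theorem r_LB : T_LB := Pool.Agent.H68.LDM.pf_LB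
theorem r_LBE : T_LBE := Pool.Agent.H35.LD.pf_LBE
theorem r_HAM : T_HAM := Pool.Agent.H75.LD.pf_HAM
theorem r_DEG : T_DEG := Pool.Agent.H67.LD.pf_DEG
theorem r_RAY : T_RAY := Pool.Agent.H67.LD.pf_RAY
theorem r_ROOT : T_ROOT := Pool.Agent.H67.LD.pf_ROOT
theorem r_CLU : T_CLU := Pool.Agent.H11.LD.pf_CLU
theorem r_QM : T_QM := Pool.Agent.H19.LD.pf_QM
theorem r_UBA : T_UBA := Pool.Agent.H63.LD.pf_UBA
theorem r_UBK : T_UBK := Pool.Agent.H20.LD.pf_UBK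
theorem r_UBL : T_UBL := Pool.Agent.H60.LD.pf_UBL
theorem r_DG2 : T_DG2 := Pool.Agent.H19.LD.pf_DG2 r_LB
theorem r_PTH : T_PTH := Pool.Agent.H19.LD.pf_PTH r_LBE r_SIN
theorem r_PLB : T_PLB := Pool.Agent.H1.LD.pf_PLB r_LB r_SIN
theorem r_PU : T_PU := Pool.Agent.H60.LD.pf_PU r_SIN
theorem r_CU : T_CU := Pool.Agent.H13.LD.pf_CU r_SIN
theorem r_UBB : T_UBB := Pool.Agent.H74.LD.pf_UBB r_PU r_CU r_UBL r_UBK
theorem r_EXA : T_EXA := Pool.Agent.H20.LD.pf_EXA r_ROOT r_UBA r_UBB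
theorem r_GEN : T_GEN := Pool.Agent.H36.LD.pf_GEN r_DEG
theorem r_CLS : T_CLS := Pool.Agent.H11.LD.pf_CLS r_DEG r_ROOT r_CLU r_HAM r_DG2 r_PTH r_QM
theorem r_MLB : T_MLB := Pool.Agent.H1.LD.pf_MLB r_DEG r_ROOT r_CLU r_HAM r_DG2 r_PLB r_GEN
theorem r_FIN : T_FIN :=
  Pool.Agent.H2.LDM.pf_FIN r_RAY r_ROOT r_CLS r_MLB r_UBA r_UBB r_EXA r_GEN

end Pool.Agent.H11.LD.All
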