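import Pool.Agent.H11.LD.CLU

/-! # Row CLS, first part: labelling of the vertices -/

set_option autoImplicit false

open Finset Classical

namespace Pool.Agent.H11.LD

open Pool.Agent.H9.Lap

theorem three_lab {V : Type} (S : Finset V) (m : ℕ) (hm : 3 ≤ m) (hS : S.card = m) {x0 x1 x2 : V}
    (h0 : x0 ∈ S) (h1 : x1 ∈ S) (h2 : x2 ∈ S) (h01 : x0 ≠ x1) (h02 : x0 ≠ x2) (h12 : x1 ≠ x2) :
    ∃ φ : V → Fin m, (∀ a ∈ S, ∀ b ∈ S, φ a = φ b → a = b) ∧ (φ x0 : ℕ) = 0 ∧ (φ x1 : ℕ) = 1 ∧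
      (φ x2 : ℕ) = 2 := by
  have E : {x // x ∈ S} ≃ Fin m := S.equivFinOfCardEq hS
  let z0 : Fin m := ⟨0, by omega⟩
  let z1 : Fin m := ⟨1, by omega⟩
  let z2 : Fin m := ⟨2, by omega⟩
  have z01 : z0 ≠ z1 := fun h => by
    have := congrArg Fin.val h
    simp [z0, z1] at this
  have z02 : z0 ≠ z2 := fun h => by
    have := congrArg Fin.val h
    simp [z0, z2] at this
  have z12 : z1 ≠ z2 := fun h => by
    have := congrArg Fin.val h
    simp [z1, z2] at this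
  have key : ∃ F : {x // x ∈ S} ≃ Fin m, F ⟨x0, h0⟩ = z0 ∧ F ⟨x1, h1⟩ = z1 ∧ F ⟨x2, h2⟩ = z2 := by
    let E1 := E.trans (Equiv.swap (E ⟨x0, h0⟩) z0)
    have e10 : E1 ⟨x0, h0⟩ = z0 := by simp [E1]
    let E2 := E1.trans (Equiv.swap (E1 ⟨x1, h1⟩) z1)
    have e11 : E1 ⟨x1, h1⟩ ≠ z0 := fun h => by
      rw [← e10] at h
      exact h01 (congrArg Subtype.val (E1.injective h)).symm
    have e20 : E2 ⟨x0, h0⟩ = z0 := by
      change Equiv.swap (E1 ⟨x1, h1⟩) z1 (E1 ⟨x0, h0⟩) = z0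
      rw [e10, Equiv.swap_apply_of_ne_of_ne e11.symm z01]
    have e21 : E2 ⟨x1, h1⟩ = z1 := by
      change Equiv.swap (E1 ⟨x1, h1⟩) z1 (E1 ⟨x1, h1⟩) = z1
      rw [Equiv.swap_apply_left]
    let E3 := E2.trans (Equiv.swap (E2 ⟨x2, h2⟩) z2)
    have f0 : E2 ⟨x2, h2⟩ ≠ z0 := fun h => by
      rw [← e20] at h
      exact h02 (congrArg Subtype.val (E2.injective h)).symm
    have f1 : E2 ⟨x2, h2⟩ ≠ z1 := fun h => by
      rw [← e21] at h
      exact h12 (congrArg Subtype.val (E2.injective h)).symm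
    refine ⟨E3, ?_, ?_, ?_⟩
    · change Equiv.swap (E2 ⟨x2, h2⟩) z2 (E2 ⟨x0, h0⟩) = z0
      rw [e20, Equiv.swap_apply_of_ne_of_ne f0.symm z02]
    · change Equiv.swap (E2 ⟨x2, h2⟩) z2 (E2 ⟨x1, h1⟩) = z1
      rw [e21, Equiv.swap_apply_of_ne_of_ne f1.symm z12]
    · change Equiv.swap (E2 ⟨x2, h2⟩) z2 (E2 ⟨x2, h2⟩) = z2
      rw [Equiv.swap_apply_left]
  obtain ⟨F, hF0, hF1, hF2⟩ := key
  refine ⟨fun v => if h : v ∈ S then F ⟨v, h⟩ else z0, ?_, ?_, ?_, ?_⟩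
  · intro a ha b hb hab
    simp only [dif_pos ha, dif_pos hb] at hab
    exact congrArg Subtype.val (F.injective hab)
  · simp only [dif_pos h0, hF0]; rfl
  · simp only [dif_pos h1, hF1]; rfl
  · simp only [dif_pos h2, hF2]; rfl

theorem exists_lab {V : Type} [Fintype V] {g m : ℕ} (hm : 3 ≤ m) (hcard : Fintype.card V = g * m)
    (p : V → Fin g) (pos : Fin g → ℕ) (c u w : Fin g → V) (hlt : ∀ i, pos i < g)
    (hinj : Function.Injective pos) (hfib : ∀ i, (univ.filter fun v => p v = i).card = m)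
    (hc : ∀ i, p (c i) = i) (hu : ∀ i, p (u i) = i) (hw : ∀ i, p (w i) = i)
    (hcu : ∀ i, c i ≠ u i) (hcw : ∀ i, c i ≠ w i) (huw : ∀ i, u i ≠ w i) :
    ∃ e : V ≃ Fin g × Fin m, (∀ v, ((e v).1 : ℕ) = pos (p v)) ∧
      (∀ v, ((e v).2 : ℕ) = 0 ↔ v = c (p v)) ∧ (∀ v, ((e v).2 : ℕ) = 1 ↔ v = u (p v)) ∧
      (∀ v, ((e v).2 : ℕ) = 2 ↔ v = w (p v)) := by
  have hmem : ∀ i (v : V), v ∈ (univ.filter fun v => p v = i) ↔ p v = i := fun i v => by
    rw [Finset.mem_filter]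
    exact ⟨fun h => h.2, fun h => ⟨Finset.mem_univ _, h⟩⟩
  have hφ := fun i => three_lab (univ.filter fun v => p v = i) m hm (hfib i)
    ((hmem i _).2 (hc i)) ((hmem i _).2 (hu i)) ((hmem i _).2 (hw i)) (hcu i) (hcw i) (huw i)
  choose φ hφi hφ0 hφ1 hφ2 using hφ
  let F : V → Fin g × Fin m := fun v => (⟨pos (p v), hlt _⟩, φ (p v) v)
  have hF : Function.Injective F := by
    intro a b hab
    have h1 : pos (p a) = pos (p b) := congrArg (fun z : Fin g × Fin m => (z.1 : ℕ)) hab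
    have h2 : φ (p a) a = φ (p b) b := congrArg (fun z : Fin g × Fin m => z.2) hab
    have h3 := hinj h1
    rw [← h3] at h2
    exact hφi (p a) a ((hmem _ _).2 rfl) b ((hmem _ _).2 h3.symm) h2
  have hbij : Function.Bijective F :=
    (Fintype.bijective_iff_injective_and_card F).2 ⟨hF, by simp [hcard]⟩
  have hlab : ∀ (x : Fin g → V) (t : ℕ) (_ : ∀ i, p (x i) = i) (_ : ∀ i, (φ i (x i) : ℕ) = t) (v : V),
      (φ (p v) v : ℕ) = t ↔ v = x (p v) := by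
    intro x t hx ht v
    constructor
    · intro h
      refine hφi (p v) v ((hmem _ _).2 rfl) _ ((hmem _ _).2 (hx _)) (Fin.ext ?_)
      rw [h, ht]
    · intro h
      have h2 := ht (p v)
      rw [← h] at h2
      exact h2
  exact ⟨Equiv.ofBijective F hbij, fun v => rfl, hlab c 0 hc hφ0, hlab u 1 hu hφ1,
    hlab w 2 hw hφ2⟩

/-- the final step -/
theorem minimizer_of {V : Type} [Fintype V] {G : SimpleGraph V} {g m : ℕ} (hm : 3 ≤ m)
    (hcard : Fintype.card V = g * m) {p : V → Fin g} {c : Fin g → V} (hC : Clu G g m p c)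
    (pos : Fin g → ℕ) (u w : Fin g → V) (hlt : ∀ i, pos i < g) (hinj : Function.Injective pos)
    (hu : ∀ i, p (u i) = i) (hw : ∀ i, p (w i) = i) (hcu : ∀ i, c i ≠ u i)
    (hcw : ∀ i, c i ≠ w i) (huw : ∀ i, u i ≠ w i) (P Q : Prop) (hP : P → Odd g)
    (hQ : Q → Odd g ∧ 5 ≤ m ∧ ¬ P)
    (hA : ∀ a b, p a ≠ p b → (G.Adj a b ↔
      (a = u (p a) ∧ b = w (p b) ∧
        (pos (p b) = pos (p a) + 1 ∨ (P ∧ pos (p a) + 1 = g ∧ pos (p b) = 0))) ∨
      (b = u (p b) ∧ a = w (p a) ∧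
        (pos (p a) = pos (p b) + 1 ∨ (P ∧ pos (p b) + 1 = g ∧ pos (p a) = 0)))))
    (hB : ∀ a b, a ≠ b → p a = p b → a ≠ c (p a) → b ≠ c (p b) →
      ((a = u (p a) ∧ (pos (p a) + 1 < g ∨ P)) ∨ (a = w (p a) ∧ (0 < pos (p a) ∨ P))) →
      (G.Adj a b ↔ Q ∧ 2 * pos (p a) + 1 = g ∧
        ((b = u (p b) ∧ (pos (p b) + 1 < g ∨ P)) ∨ (b = w (p b) ∧ (0 < pos (p b) ∨ P))))) :
    Minimizer G g m := by
  obtain ⟨e, he, he0, he1, he2⟩ := exists_lab hm hcard p pos c u w hlt hinj hC.card hC.pc hu hw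
    hcu hcw huw
  have hp : ∀ a b, (e a).1 = (e b).1 ↔ p a = p b := by
    intro a b
    constructor
    · intro h
      apply hinj
      rw [← he, ← he, h]
    · intro h
      apply Fin.ext
      rw [he, he, h]
  have hL : ∀ a b, Link g P ((e a).1, (e a).2) ((e b).1, (e b).2) ↔
      (a = u (p a) ∧ b = w (p b) ∧
        (pos (p b) = pos (p a) + 1 ∨ (P ∧ pos (p a) + 1 = g ∧ pos (p b) = 0))) := by
    intro a b
    unfold Link
    simp only [he, he1, he2]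
  have hU : ∀ a, Used g P ((e a).1, (e a).2) ↔
      ((a = u (p a) ∧ (pos (p a) + 1 < g ∨ P)) ∨ (a = w (p a) ∧ (0 < pos (p a) ∨ P))) := by
    intro a
    unfold Used
    simp only [he, he1, he2]
  refine ⟨e, P, Q, hP, hQ, ⟨?_, ?_, ?_⟩⟩
  · intro a b hab ha hb
    rw [hp] at hab
    rw [he0] at ha
    have hb' : b ≠ c (p b) := fun h => hb ((he0 b).2 h)
    have h1 := hC.star b hb'
    rw [← hab, ← ha] at h1
    exact h1
  · intro a b hab
    have hab' : p a ≠ p b := fun h => hab ((hp a b).2 h)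
    rw [hL, hL]
    exact hA a b hab'
  · intro a b hne hab ha hb hus
    rw [hp] at hab
    have ha' : a ≠ c (p a) := fun h => ha ((he0 a).2 h)
    have hb' : b ≠ c (p b) := fun h => hb ((he0 b).2 h)
    rw [hU] at hus ⊢
    rw [he]
    exact hB a b hne hab ha' hb' hus

end Pool.Agent.H11.LD
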