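import Pool.Agent.H11.LD.Targets

/-! # Row CLU: the clusters -/

set_option autoImplicit false

open Finset Classical

namespace Pool.Agent.H11.LD

open Pool.Agent.H9.Lap

theorem mem_nb' {V : Type} [Fintype V] {G : SimpleGraph V} {v w : V} :
    w ∈ nb G v ↔ G.Adj v w := by
  unfold nb
  rw [Finset.mem_filter]
  exact ⟨fun h => h.2, fun h => ⟨Finset.mem_univ _, h⟩⟩

theorem pf_CLU : T_CLU := by
  intro V _ G g m hg hm hcard hdom hdeg
  obtain ⟨D, hD, hDc⟩ := hdom.1
  have h : ∀ v, ∃ d ∈ D, (v ∈ D → d = v) ∧ (v ∉ D → G.Adj d v) := by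
    intro v
    by_cases hv : v ∈ D
    · exact ⟨v, hv, fun _ => rfl, fun h => absurd hv h⟩
    · obtain ⟨d, hd, hdv⟩ := hD v hv
      exact ⟨d, hd, fun h => absurd h hv, fun _ => hdv⟩
  choose s hs1 hs2 hs3 using h
  have hsub : ∀ d ∈ D, (univ.filter fun v => s v = d) ⊆ insert d (nb G d) := by
    intro d _ v hv
    rw [Finset.mem_filter] at hv
    rw [Finset.mem_insert, mem_nb']
    by_cases hvD : v ∈ D
    · left
      rw [← hs2 v hvD, hv.2]
    · right
      rw [← hv.2]
      exact hs3 v hvD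
  have hle : ∀ d ∈ D, (univ.filter fun v => s v = d).card ≤ m := fun d hd =>
    (Finset.card_le_card (hsub d hd)).trans ((Finset.card_insert_le _ _).trans (hdeg d))
  have hsum : ∑ d ∈ D, (univ.filter fun v => s v = d).card = ∑ d ∈ D, m := by
    rw [← Finset.card_eq_sum_card_fiberwise (fun v _ => hs1 v), Finset.card_univ, hcard,
      Finset.sum_const, hDc, smul_eq_mul]
  have heq := (Finset.sum_eq_sum_iff_of_le hle).1 hsum
  have hfib : ∀ d ∈ D, (univ.filter fun v => s v = d) = insert d (nb G d) := fun d hd =>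
    Finset.eq_of_subset_of_card_le (hsub d hd)
      (((Finset.card_insert_le _ _).trans (hdeg d)).trans (heq d hd).ge)
  have E : {x // x ∈ D} ≃ Fin g := D.equivFinOfCardEq hDc
  have hpc : ∀ v (i : Fin g), E ⟨s v, hs1 v⟩ = i ↔ s v = (E.symm i : V) := by
    intro v i
    rw [← Equiv.eq_symm_apply]
    exact ⟨fun h => congrArg Subtype.val h, fun h => Subtype.ext h⟩
  refine ⟨fun v => E ⟨s v, hs1 v⟩, fun i => (E.symm i : V), ⟨?_, ?_, ?_, ?_⟩⟩
  · intro i
    rw [hpc]
    exact hs2 _ (E.symm i).2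
  · intro i
    have h1 : (univ.filter fun v => E ⟨s v, hs1 v⟩ = i) =
        univ.filter fun v => s v = (E.symm i : V) :=
      Finset.filter_congr fun v _ => hpc v i
    rw [h1]
    exact heq _ (E.symm i).2
  · intro v hv
    have h1 : ((E.symm (E ⟨s v, hs1 v⟩) : {x // x ∈ D}) : V) = s v := by
      rw [Equiv.symm_apply_apply]
    change v ≠ ((E.symm (E ⟨s v, hs1 v⟩) : {x // x ∈ D}) : V) at hv
    change G.Adj ((E.symm (E ⟨s v, hs1 v⟩) : {x // x ∈ D}) : V) v
    rw [h1] at hv ⊢
    by_cases hvD : v ∈ D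
    · exact absurd (hs2 v hvD).symm hv
    · exact hs3 v hvD
  · intro i v hv
    change E ⟨s v, hs1 v⟩ = i
    rw [hpc]
    have h1 : v ∈ univ.filter fun w => s w = (E.symm i : V) := by
      rw [hfib _ (E.symm i).2, Finset.mem_insert, mem_nb']
      exact Or.inr hv
    exact (Finset.mem_filter.1 h1).2

end Pool.Agent.H11.LD
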