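import Pool.Agent.H9.Lap.Stmt
import Pool.Agent.H9.Lap.Defs

/-!
# Least Laplacian index of connected graphs with given domination number (MP_c4ad93_co, Q2):
definitions

The domination number `HasDom` and the Laplacian index `IsLapIndex` are those of
`Pool.Agent.H9.Lap.Stmt`.
-/

set_option autoImplicit false

open Finset Classical

namespace Pool.Agent.H11.LD

open Pool.Agent.H9.Lap

/-- The link from the position `u = (i, 1)` to the position `v = (i', 2)`: either `i' = i + 1`, or
`P` holds, `i` is the last and `i' = 0` is the first cluster. -/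
def Link (g : ℕ) (P : Prop) (u v : ℕ × ℕ) : Prop :=
  u.2 = 1 ∧ v.2 = 2 ∧ (v.1 = u.1 + 1 ∨ (P ∧ u.1 + 1 = g ∧ v.1 = 0))

/-- The position `u = (i, j)` is an end of a link. -/
def Used (g : ℕ) (P : Prop) (u : ℕ × ℕ) : Prop :=
  (u.2 = 1 ∧ (u.1 + 1 < g ∨ P)) ∨ (u.2 = 2 ∧ (0 < u.1 ∨ P))

/-- The minimal structure, seen through the bijection `e` of the vertices with the positions
`(i, j)`, `i < g`, `j < m`. The cluster `i` is a star with the centre `(i, 0)` and the leaves
`(i, j)`, `0 < j`; the edges between different clusters are the links; a leaf which is an end of a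
link is adjacent to no other leaf of its cluster, except for the two ends of links in the middle
cluster if `Q` holds. There is no condition for the other leaves of the same cluster. -/
structure Str {V : Type} (G : SimpleGraph V) (g m : ℕ) (e : V ≃ Fin g × Fin m) (P Q : Prop) :
    Prop where
  star : ∀ u v, (e u).1 = (e v).1 → ((e u).2 : ℕ) = 0 → ((e v).2 : ℕ) ≠ 0 → G.Adj u v
  link : ∀ u v, (e u).1 ≠ (e v).1 →
    (G.Adj u v ↔ Link g P ((e u).1, (e u).2) ((e v).1, (e v).2) ∨
      Link g P ((e v).1, (e v).2) ((e u).1, (e u).2))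
  used : ∀ u v, u ≠ v → (e u).1 = (e v).1 → ((e u).2 : ℕ) ≠ 0 → ((e v).2 : ℕ) ≠ 0 →
    Used g P ((e u).1, (e u).2) →
    (G.Adj u v ↔ Q ∧ 2 * ((e u).1 : ℕ) + 1 = g ∧ Used g P ((e v).1, (e v).2))

/-- The graphs of least Laplacian index: `g` stars of `m` vertices in a row, consecutive stars
linked by an edge between leaves, every leaf being the end of at most one link; if `g` is odd,
possibly one more link between the last and the first star (`P`), or, for `m ≥ 5` and without `P`,
an edge between the two ends of links in the middle star (`Q`); and arbitrary edges between the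
leaves of the same star which are not ends of links. -/
def Minimizer {V : Type} (G : SimpleGraph V) (g m : ℕ) : Prop :=
  ∃ (e : V ≃ Fin g × Fin m) (P Q : Prop), (P → Odd g) ∧ (Q → Odd g ∧ 5 ≤ m ∧ ¬ P) ∧
    Str G g m e P Q

/-- `μ` is the largest root of `x (x - 3) (x - m) = 4 cos² (π / 2g)`. -/
def IsRoot (g m : ℕ) (μ : ℝ) : Prop :=
  IsGreatest {x : ℝ | x * (x - 3) * (x - m) = 4 * Real.cos (Real.pi / (2 * g)) ^ 2} μ

/-! ## Auxiliary notions -/

/-- the quadratic form of the Laplacian matrix -/
noncomputable def qf {V : Type} [Fintype V] (G : SimpleGraph V) (f : V → ℝ) : ℝ :=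
  (∑ v, ∑ w ∈ nb G v, (f v - f w) ^ 2) / 2

/-- `qf G f ≤ μ ‖f‖²` -/
def Ub {V : Type} [Fintype V] (G : SimpleGraph V) (μ : ℝ) : Prop :=
  ∀ f : V → ℝ, qf G f ≤ μ * ∑ v, f v ^ 2

/-- Clusters: the closed neighbourhoods of the centres `c i` are the fibres of `p`, of size `m`. -/
structure Clu {V : Type} [Fintype V] (G : SimpleGraph V) (g m : ℕ) (p : V → Fin g)
    (c : Fin g → V) : Prop where
  pc : ∀ i, p (c i) = i
  card : ∀ i, (univ.filter fun v => p v = i).card = m
  star : ∀ v, v ≠ c (p v) → G.Adj (c (p v)) v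
  hub : ∀ i v, G.Adj (c i) v → p v = i

/-- A set `E` of (oriented) edges between leaves of different clusters, signs and weights of the
clusters: the signs of the clusters joined by an edge of `E` are different. -/
structure Sys {V : Type} [Fintype V] (G : SimpleGraph V) {g : ℕ} (p : V → Fin g)
    (E : Finset (V × V)) (A s : Fin g → ℝ) : Prop where
  nn : ∀ i, 0 ≤ A i
  sg : ∀ i, s i = 1 ∨ s i = -1
  adj : ∀ e ∈ E, G.Adj e.1 e.2
  alt : ∀ e ∈ E, s (p e.1) = -s (p e.2)
  ori : ∀ e ∈ E, (e.2, e.1) ∉ E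

/-- the weight of an edge -/
def wt {V : Type} {g : ℕ} (p : V → Fin g) (A : Fin g → ℝ) (e : V × V) : ℝ :=
  A (p e.1) + A (p e.2)

/-- the sum of the weights of the edges of `E` at the vertex `a` -/
noncomputable def load {V : Type} {g : ℕ} (p : V → Fin g) (E : Finset (V × V)) (A : Fin g → ℝ)
    (a : V) : ℝ := ∑ e ∈ E.filter (fun e => e.1 = a ∨ e.2 = a), wt p A e

/-- the weights of the path: `sin (π (2i+1) / 2g)` -/
noncomputable def sn (g i : ℕ) : ℝ := Real.sin (Real.pi * (2 * i + 1) / (2 * g))

/-- A row: the clusters have the positions `pos i`, which are the numbers `0, .., g-1`, and the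
leaf `u i` of the cluster `i` is adjacent to the leaf `w k` of the next cluster `k`. -/
structure Row {V : Type} [Fintype V] (G : SimpleGraph V) {g : ℕ} (p : V → Fin g)
    (pos : Fin g → ℕ) (u w : Fin g → V) : Prop where
  lt : ∀ i, pos i < g
  inj : Function.Injective pos
  pu : ∀ i, p (u i) = i
  pw : ∀ i, p (w i) = i
  adj : ∀ i k, pos k = pos i + 1 → G.Adj (u i) (w k)

/-- `a` is the end of a link of the row -/
def UsedR {V : Type} {g : ℕ} (p : V → Fin g) (pos : Fin g → ℕ) (u w : Fin g → V) (a : V) : Prop :=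
  (a = u (p a) ∧ pos (p a) + 1 < g) ∨ (a = w (p a) ∧ 0 < pos (p a))

/-- the leaves of the cluster `i` which are not ends of links -/
noncomputable def ordL (g m : ℕ) (P : Prop) (i : ℕ) : Finset ℕ :=
  (range m).filter fun j => j ≠ 0 ∧ ¬ Used g P (i, j)

/-- the quadratic form of the largest graph with the structure `Str` -/
noncomputable def FF (g m : ℕ) (P Q : Prop) (x : ℕ → ℕ → ℝ) : ℝ :=
  ∑ i ∈ range g, (∑ j ∈ (range m).erase 0, (x i 0 - x i j) ^ 2 +
    (∑ j ∈ ordL g m P i, ∑ j' ∈ ordL g m P i, (x i j - x i j') ^ 2) / 2) +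
  ∑ i ∈ range (g - 1), (x i 1 - x (i + 1) 2) ^ 2 +
  (if P then (x (g - 1) 1 - x 0 2) ^ 2 else 0) +
  (if Q then (x (g / 2) 1 - x (g / 2) 2) ^ 2 else 0)

end Pool.Agent.H11.LD
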